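import Mathlib

namespace Pool.Agent.Results.MP_36d240_al.NotTransitive

/-- Primary conjugacy: `a = u v` and `b = v u` for some `u, v` in `S¹`. -/
def PConj {S : Type} [Semigroup S] (a b : S) : Prop :=
  ∃ u v : WithOne S, (a : WithOne S) = u * v ∧ (b : WithOne S) = v * u

/-- The ambient group. -/
abbrev Amb : Type := Multiplicative ℤ × Equiv.Perm (Fin 3)

/-- The three permutations allowed in degree one. -/
def gens : Finset (Equiv.Perm (Fin 3)) := {Equiv.swap 1 2, finRotate 3, Equiv.swap 0 2}

/-- The subsemigroup of pairs of degree at least two, or of degree one with an allowed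
permutation. -/
def Sg : Subsemigroup Amb where
  carrier := {x | 2 ≤ x.1.toAdd ∨ (x.1.toAdd = 1 ∧ x.2 ∈ gens)}
  mul_mem' := by
    rintro x y hx hy
    left
    simp only [Prod.fst_mul, toAdd_mul]
    rcases hx with hx | hx <;> rcases hy with hy | hy <;> omega

/-- An element of degree one. -/
def g1 (h : Equiv.Perm (Fin 3)) (hh : h ∈ gens) : Sg := ⟨(Multiplicative.ofAdd 1, h), Or.inr ⟨rfl, hh⟩⟩

theorem result : ∃ (S : Type) (_ : Semigroup S),
    IsCancelMul S ∧ (∃ (G : Type) (_ : Group G) (f : S →ₙ* G), Function.Injective f) ∧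
      ∃ a b c : S, PConj a b ∧ PConj b c ∧ ¬ PConj a c := by
  let u := g1 (Equiv.swap 1 2) (by decide)
  let v := g1 (finRotate 3) (by decide)
  let s := g1 (Equiv.swap 0 2) (by decide)
  refine ⟨Sg, inferInstance, ?_, ⟨Amb, inferInstance, MulMemClass.subtype Sg, Subtype.val_injective⟩,
    u * v, v * u, v * s, ⟨u, v, rfl, rfl⟩, ⟨s, v, ?_, rfl⟩, ?_⟩
  · exact
      { mul_left_cancel := fun a b c h => Subtype.ext (mul_left_cancel (congrArg Subtype.val h))
        mul_right_cancel := fun a b c h => Subtype.ext (mul_right_cancel (congrArg Subtype.val h)) }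
  · rw [← WithOne.coe_mul]
    congr 1
    apply Subtype.ext
    apply Prod.ext
    · rfl
    · show finRotate 3 * Equiv.swap 1 2 = Equiv.swap 0 2 * finRotate 3
      decide
  · have hne : u * v ≠ v * s := by
      intro h
      have h1 : Equiv.swap 1 2 * finRotate 3 = finRotate 3 * Equiv.swap 0 2 :=
        congrArg (fun x : Sg => x.1.2) h
      revert h1; decide
    rintro ⟨x, y, h1, h2⟩
    induction x using WithOne.recOneCoe with
    | one =>
      rw [one_mul] at h1; rw [mul_one] at h2
      exact hne (WithOne.coe_injective (h1.trans h2.symm))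
    | coe x =>
      induction y using WithOne.recOneCoe with
      | one =>
        rw [mul_one] at h1; rw [one_mul] at h2
        exact hne (WithOne.coe_injective (h1.trans h2.symm))
      | coe y =>
        rw [← WithOne.coe_mul, WithOne.coe_inj] at h1 h2
        have d1 : (1 : ℤ) + 1 = x.1.1.toAdd + y.1.1.toAdd := congrArg (fun z : Sg => z.1.1.toAdd) h1
        have p1 : Equiv.swap 1 2 * finRotate 3 = x.1.2 * y.1.2 := congrArg (fun z : Sg => z.1.2) h1
        have p2 : finRotate 3 * Equiv.swap 0 2 = y.1.2 * x.1.2 := congrArg (fun z : Sg => z.1.2) h2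
        have key : ∀ p ∈ gens, ∀ q ∈ gens, Equiv.swap 1 2 * finRotate 3 = p * q →
            finRotate 3 * Equiv.swap 0 2 ≠ q * p := by decide
        rcases x.2 with hx | hx <;> rcases y.2 with hy | hy
        · omega
        · omega
        · omega
        · exact key _ hx.2 _ hy.2 p1 p2

end Pool.Agent.Results.MP_36d240_al.NotTransitive
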